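import Mathlib
import Pool.Agent.Helper514.IoD

set_option autoImplicit false

open Set Module Topology Filter

namespace Pool.Agent.Helper255.Diam

/-- Invariance of dimension for injective continuous maps on open sets. -/
lemma finrank_le_of_injOn {X V : Type} [NormedAddCommGroup X] [NormedSpace ℝ X]
    [FiniteDimensional ℝ X] [NormedAddCommGroup V] [NormedSpace ℝ V] [FiniteDimensional ℝ V]
    {U : Set X} (hU : IsOpen U) {x0 : X} (hx0 : x0 ∈ U) (f : X → V) (hf : ContinuousOn f U)
    (hi : InjOn f U) : finrank ℝ X ≤ finrank ℝ V := by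
  by_contra h
  push Not at h
  let E := EuclideanSpace ℝ (Fin (finrank ℝ X))
  have hE : finrank ℝ E = finrank ℝ X := by simp [E]
  let e : E ≃L[ℝ] X := ContinuousLinearEquiv.ofFinrankEq hE
  obtain ⟨j, hj⟩ : ∃ j : V →ₗ[ℝ] E, Function.Injective j := by
    apply Module.Free.exists_linearMap_injective_of_rank_lt
    rw [← finrank_eq_rank, ← finrank_eq_rank, hE]
    exact_mod_cast h
  have hjc : Continuous j := j.continuous_of_finiteDimensional
  have hmaps : MapsTo e (e ⁻¹' U) U := fun u hu => hu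
  have hopen : IsOpen (e ⁻¹' U) := hU.preimage e.continuous
  have hmem : e.symm x0 ∈ e ⁻¹' U := by simpa using hx0
  obtain ⟨r, hr, hball⟩ := Metric.nhds_basis_closedBall.mem_iff.mp (hopen.mem_nhds hmem)
  have hF := Pool.Agent.Helper514.IoD.image_mem_nhds (fun u => j (f (e u))) (e.symm x0) r hr
    (hjc.comp_continuousOn (hf.comp e.continuous.continuousOn fun u hu => hball hu))
    (by
      intro a ha b hb hab
      exact e.injective (hi (hball ha) (hball hb) (hj hab)))
  have hsub : (fun u => j (f (e u))) '' Metric.closedBall (e.symm x0) r ⊆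
      (LinearMap.range j : Set E) := by
    rintro _ ⟨u, _, rfl⟩
    exact ⟨_, rfl⟩
  have htop : LinearMap.range j = ⊤ := by
    apply Submodule.eq_top_of_nonempty_interior'
    exact ⟨_, mem_interior_iff_mem_nhds.mpr (Filter.mem_of_superset hF hsub)⟩
  have h1 := LinearMap.finrank_range_of_inj hj
  rw [htop, finrank_top, hE] at h1
  omega

variable {H V : Type} [NormedAddCommGroup H] [InnerProductSpace ℝ H] [FiniteDimensional ℝ H]
  [NormedAddCommGroup V] [NormedSpace ℝ V] [FiniteDimensional ℝ V]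

/-- The nonzero vectors of a subspace. -/
def nz (W : Submodule ℝ H) : Set H := {x | x ∈ W ∧ x ≠ 0}

lemma cone_step (Φ : H → V) (ℓ : H → V →ₗ[ℝ] ℝ) (hc : ∀ x, x ≠ 0 → ContinuousAt Φ x)
    (h0 : ∀ x y, x ≠ 0 → y ≠ 0 → 0 ≤ ℓ y (Φ x))
    (hz : ∀ x y, x ≠ 0 → y ≠ 0 → (ℓ y (Φ x) = 0 ↔ inner ℝ x y = 0))
    (W : Submodule ℝ H) (y0 : H) (hy0 : y0 ∈ W) (hy1 : ‖y0‖ = 1) :
    finrank ℝ W + finrank ℝ (Submodule.span ℝ (Φ '' nz ((ℝ ∙ y0)ᗮ ⊓ W))) ≤
      finrank ℝ (Submodule.span ℝ (Φ '' nz W)) := by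
  classical
  set W0 : Submodule ℝ H := (ℝ ∙ y0)ᗮ ⊓ W with hW0
  have hy0ne : y0 ≠ 0 := by
    intro h; rw [h, norm_zero] at hy1; exact zero_ne_one hy1
  have hspan : ℝ ∙ y0 ≤ W := by
    rw [Submodule.span_singleton_le_iff_mem]; exact hy0
  have hfin : finrank ℝ W = finrank ℝ W0 + 1 := by
    have := Submodule.finrank_add_inf_finrank_orthogonal hspan
    rw [finrank_span_singleton hy0ne] at this
    rw [← this, add_comm]
  have horth : ∀ w ∈ W0, inner ℝ y0 w = 0 := by
    intro w hw
    exact (Submodule.mem_orthogonal_singleton_iff_inner_right.mp hw.1)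
  obtain ⟨b, hbs, hbspan, hbli⟩ := exists_linearIndependent ℝ (Φ '' nz W0)
  have hbfin : Finite b := hbli.finite
  have : Fintype b := Fintype.ofFinite b
  have hch : ∀ v : b, ∃ p, p ∈ W0 ∧ p ≠ 0 ∧ Φ p = v := by
    intro v
    obtain ⟨p, ⟨hp1, hp2⟩, hp3⟩ := hbs v.2
    exact ⟨p, hp1, hp2, hp3⟩
  choose p hpW hpne hpΦ using hch
  have hcard : finrank ℝ (Submodule.span ℝ (Φ '' nz W0)) = Fintype.card b := by
    rw [← hbspan]
    exact finrank_span_set_eq_card hbli |>.trans (by simp [Set.toFinset_card])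
  -- the vectors `p b` separate points of `W0`
  have hsep : ∀ u ∈ W0, (∀ v : b, inner ℝ (p v) u = 0) → u = 0 := by
    intro u hu huz
    by_contra hne
    have h1 : ∀ x ∈ Submodule.span ℝ (Φ '' nz W0), ℓ u x = 0 := by
      rw [← hbspan]
      intro x hx
      induction hx using Submodule.span_induction with
      | mem y hy =>
        have := (hz (p ⟨y, hy⟩) u (hpne _) hne).mpr (huz ⟨y, hy⟩)
        rwa [hpΦ] at this
      | zero => exact map_zero _
      | add y z _ _ hy hz' => rw [map_add, hy, hz', add_zero]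
      | smul a y _ hy => rw [map_smul, hy, smul_zero]
    have h2 := h1 (Φ u) (Submodule.subset_span ⟨u, ⟨hu, hne⟩, rfl⟩)
    rw [hz u u hne hne, inner_self_eq_zero] at h2
    exact hne h2
  -- points of the moving hyperplane
  let q : b → H → H := fun v w => p v - (inner ℝ (p v) w : ℝ) • y0
  have hqW : ∀ v w, q v w ∈ W := fun v w =>
    W.sub_mem (hpW v).2 (W.smul_mem _ hy0)
  have hqne : ∀ v w, q v w ≠ 0 := by
    intro v w h
    have h1 : inner ℝ (p v) (q v w) = 0 := by rw [h, inner_zero_right]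
    have h2 : inner ℝ (p v) y0 = 0 := by
      rw [real_inner_comm]; exact horth _ (hpW v)
    simp only [q, inner_sub_right, inner_smul_right, h2, mul_zero, sub_zero,
      inner_self_eq_zero] at h1
    exact hpne v h1
  have hqorth : ∀ v w w', w ∈ W0 → w' ∈ W0 →
      inner ℝ (q v w) (y0 + w') = inner ℝ (p v) w' - inner ℝ (p v) w := by
    intro v w w' _ hw'
    have h2 : inner ℝ (p v) y0 = 0 := by
      rw [real_inner_comm]; exact horth _ (hpW v)
    have h3 : inner ℝ y0 y0 = (1 : ℝ) := by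
      rw [real_inner_self_eq_norm_sq, hy1, one_pow]
    simp only [q, inner_sub_left, inner_add_right, inner_smul_left, h2, h3, horth w' hw',
      conj_trivial]
    ring
  have hyne : ∀ w ∈ W0, y0 + w ≠ 0 := by
    intro w hw h
    have h3 : inner ℝ y0 (y0 + w) = (1 : ℝ) := by
      rw [inner_add_right, horth w hw, real_inner_self_eq_norm_sq, hy1]; norm_num
    rw [h, inner_zero_right] at h3
    exact zero_ne_one h3
  set S := Submodule.span ℝ (Φ '' nz W) with hS
  let f : (W0 × (b → ℝ) × ℝ) → S := fun x =>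
    ⟨∑ v, x.2.1 v • Φ (q v x.1) + x.2.2 • Φ y0, by
      apply Submodule.add_mem
      · apply Submodule.sum_mem
        intro v _
        exact Submodule.smul_mem _ _ (Submodule.subset_span ⟨_, ⟨hqW _ _, hqne _ _⟩, rfl⟩)
      · exact Submodule.smul_mem _ _ (Submodule.subset_span ⟨_, ⟨hy0, hy0ne⟩, rfl⟩)⟩
  let U : Set (W0 × (b → ℝ) × ℝ) :=
    {x | LinearIndependent ℝ (fun v => Φ (q v x.1)) ∧ ∀ v, 0 < x.2.1 v}
  have hqc : ∀ v, Continuous (fun x : W0 × (b → ℝ) × ℝ => q v x.1) := by
    intro v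
    have : Continuous (fun x : W0 × (b → ℝ) × ℝ => ((x.1 : W0) : H)) :=
      continuous_subtype_val.comp continuous_fst
    exact continuous_const.sub ((continuous_const.inner this).smul continuous_const)
  have hΦc : ∀ v, Continuous (fun x : W0 × (b → ℝ) × ℝ => Φ (q v x.1)) := by
    intro v
    rw [continuous_iff_continuousAt]
    intro x
    exact ContinuousAt.comp (g := Φ) (f := fun x : W0 × (b → ℝ) × ℝ => q v x.1)
      (hc _ (hqne v x.1)) (hqc v).continuousAt
  have hUo : IsOpen U := by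
    apply IsOpen.inter
    · exact isOpen_setOfPred_linearIndependent.preimage (continuous_pi hΦc)
    · have : {x : W0 × (b → ℝ) × ℝ | ∀ v, 0 < x.2.1 v} = ⋂ v, {x | 0 < x.2.1 v} := by
        ext x; simp
      show IsOpen {x : W0 × (b → ℝ) × ℝ | ∀ v, 0 < x.2.1 v}
      rw [this]
      apply isOpen_iInter_of_finite
      intro v
      exact isOpen_lt continuous_const ((continuous_apply v).comp
        (continuous_fst.comp continuous_snd))
  have hx0 : ((0 : W0), (fun _ => (1 : ℝ)), (0 : ℝ)) ∈ U := by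
    refine ⟨?_, fun v => one_pos⟩
    have : (fun v : b => Φ (q v ((0 : W0) : H))) = fun v : b => (v : V) := by
      funext v
      simp only [q, Submodule.coe_zero, inner_zero_right, zero_smul, sub_zero, hpΦ]
    show LinearIndependent ℝ (fun v : b => Φ (q v ((0 : W0) : H)))
    rw [this]
    exact hbli
  have hfc : Continuous f := by
    apply Continuous.subtype_mk
    apply Continuous.add
    · apply continuous_finsetSum
      intro v _
      exact ((continuous_apply v).comp (continuous_fst.comp continuous_snd)).smul (hΦc v)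
    · exact (continuous_snd.comp continuous_snd).smul continuous_const
  -- the value of the functional of `y0 + w'`
  have hval : ∀ (x : W0 × (b → ℝ) × ℝ) (w' : W0), ℓ (y0 + w') (f x) =
      ∑ v, x.2.1 v * ℓ (y0 + w') (Φ (q v x.1)) + x.2.2 * ℓ (y0 + w') (Φ y0) := by
    intro x w'
    simp only [f, map_add, map_sum, map_smul, smul_eq_mul]
  have hself : ∀ (x : W0 × (b → ℝ) × ℝ), ∑ v, x.2.1 v * ℓ (y0 + x.1) (Φ (q v x.1)) = 0 := by
    intro x
    apply Finset.sum_eq_zero
    intro v _
    have := (hz (q v x.1) (y0 + x.1) (hqne _ _) (hyne _ x.1.2)).mpr (by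
      rw [hqorth v x.1 x.1 x.1.2 x.1.2, sub_self])
    rw [this, mul_zero]
  have hpos : ∀ w' : W0, 0 < ℓ (y0 + w') (Φ y0) := by
    intro w'
    refine lt_of_le_of_ne (h0 _ _ hy0ne (hyne _ w'.2)) ?_
    intro h
    have := (hz y0 (y0 + w') hy0ne (hyne _ w'.2)).mp h.symm
    rw [inner_add_right, horth _ w'.2, real_inner_self_eq_norm_sq, hy1] at this
    norm_num at this
  have hle : ∀ x ∈ U, ∀ x' ∈ U, f x = f x' → x.2.2 ≤ x'.2.2 := by
    intro x hx x' hx' he
    have h1 := hval x x'.1
    have h2 := hval x' x'.1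
    rw [he, h2, hself, zero_add] at h1
    have h3 : 0 ≤ ∑ v, x.2.1 v * ℓ (y0 + x'.1) (Φ (q v x.1)) :=
      Finset.sum_nonneg fun v _ => mul_nonneg (hx.2 v).le (h0 _ _ (hqne _ _) (hyne _ x'.1.2))
    have h4 := hpos x'.1
    nlinarith
  have hinj : InjOn f U := by
    intro x hx x' hx' he
    have hs : x.2.2 = x'.2.2 := le_antisymm (hle x hx x' hx' he) (hle x' hx' x hx he.symm)
    have hw : x.1 = x'.1 := by
      have h1 := hval x x'.1
      have h2 := hval x' x'.1
      rw [he, h2, hself, zero_add, hs] at h1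
      have h3 : ∑ v, x.2.1 v * ℓ (y0 + x'.1) (Φ (q v x.1)) = 0 := by linarith
      rw [Finset.sum_eq_zero_iff_of_nonneg (fun v _ => mul_nonneg (hx.2 v).le
        (h0 _ _ (hqne _ _) (hyne _ x'.1.2)))] at h3
      have h4 : ((x'.1 : W0) : H) - x.1 = 0 := by
        apply hsep _ (W0.sub_mem x'.1.2 x.1.2)
        intro v
        have h5 := (mul_eq_zero.mp (h3 v (Finset.mem_univ v))).resolve_left (hx.2 v).ne'
        have h6 := (hz _ _ (hqne _ _) (hyne _ x'.1.2)).mp h5
        rw [hqorth v x.1 x'.1 x.1.2 x'.1.2] at h6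
        rw [inner_sub_right]
        exact h6
      exact Subtype.ext (sub_eq_zero.mp h4).symm
    have hl : x.2.1 = x'.2.1 := by
      have h1 : (f x : V) = f x' := congrArg _ he
      simp only [f, hw, hs, add_left_inj] at h1
      have h2 : ∑ v, (x.2.1 v - x'.2.1 v) • Φ (q v x'.1) = 0 := by
        simp only [sub_smul, Finset.sum_sub_distrib, h1, sub_self]
      have h3 := Fintype.linearIndependent_iff.mp hx'.1 _ h2
      funext v
      exact sub_eq_zero.mp (h3 v)
    exact Prod.ext hw (Prod.ext hl hs)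
  have hmain := finrank_le_of_injOn hUo hx0 f hfc.continuousOn hinj
  rw [finrank_prod, finrank_prod, finrank_self, finrank_fintype_fun_eq_card] at hmain
  rw [hcard, hfin]
  omega

/-- The quadratic lower bound. -/
lemma cone_bound (Φ : H → V) (ℓ : H → V →ₗ[ℝ] ℝ) (hc : ∀ x, x ≠ 0 → ContinuousAt Φ x)
    (h0 : ∀ x y, x ≠ 0 → y ≠ 0 → 0 ≤ ℓ y (Φ x))
    (hz : ∀ x y, x ≠ 0 → y ≠ 0 → (ℓ y (Φ x) = 0 ↔ inner ℝ x y = 0)) :
    ∀ (k : ℕ) (W : Submodule ℝ H), finrank ℝ W = k →
      k * (k + 1) ≤ 2 * finrank ℝ (Submodule.span ℝ (Φ '' nz W)) := by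
  intro k
  induction k with
  | zero => intro W _; simp
  | succ k ih =>
    intro W hW
    have hne : W ≠ ⊥ := by
      intro h; rw [h, finrank_bot] at hW; omega
    obtain ⟨y, hy, hyne⟩ := Submodule.exists_mem_ne_zero_of_ne_bot hne
    set y0 := ‖y‖⁻¹ • y with hy0
    have hy0W : y0 ∈ W := W.smul_mem _ hy
    have hy1 : ‖y0‖ = 1 := by
      rw [hy0, norm_smul, norm_inv, norm_norm, inv_mul_cancel₀ (norm_ne_zero_iff.mpr hyne)]
    have hy0ne : y0 ≠ 0 := by
      intro h; rw [h, norm_zero] at hy1; exact zero_ne_one hy1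
    have hstep := cone_step Φ ℓ hc h0 hz W y0 hy0W hy1
    have hfin : finrank ℝ ((ℝ ∙ y0)ᗮ ⊓ W : Submodule ℝ H) = k := by
      have := Submodule.finrank_add_inf_finrank_orthogonal
        ((Submodule.span_singleton_le_iff_mem y0 W).mpr hy0W)
      rw [finrank_span_singleton hy0ne, hW] at this
      omega
    have h1 := ih _ hfin
    rw [hW] at hstep
    nlinarith

end Pool.Agent.Helper255.Diam
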