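import Mathlib

set_option autoImplicit false

open Real Set

namespace Pool.Agent.Helper255.Nd

/-- A sequence of functions each of which is the derivative of the previous one. -/
def Jet {n : ℕ} (F : ℕ → ℝ → Fin n → ℝ) : Prop :=
  ∀ j t i, HasDerivAt (fun s => F j s i) (F (j + 1) t i) t

/-- Dual form of nondegeneracy. -/
def DNd {n : ℕ} (F : ℕ → ℝ → Fin n → ℝ) : Prop :=
  ∀ t (x : Fin n → ℝ), (∀ j, 1 ≤ j → j ≤ n → ∑ i, x i * F j t i = 0) → x = 0

def Per {n : ℕ} (F : ℕ → ℝ → Fin n → ℝ) : Prop :=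
  ∀ j t i, F j (t + 2 * π) i = F j t i

/-- The first two coordinates are `cos t`, `sin t`. -/
def Circ {n : ℕ} (F : ℕ → ℝ → Fin n → ℝ) : Prop :=
  ∀ t (i : Fin n), ((i : ℕ) = 0 → F 0 t i = cos t) ∧ ((i : ℕ) = 1 → F 0 t i = sin t)

def Good (n : ℕ) : Prop :=
  ∃ F : ℕ → ℝ → Fin n → ℝ, Jet F ∧ DNd F ∧ Per F ∧ Circ F

noncomputable def cj (M : ℝ) (j : ℕ) (t : ℝ) : ℝ := M ^ j * cos (M * t + j * (π / 2))
noncomputable def sj (M : ℝ) (j : ℕ) (t : ℝ) : ℝ := M ^ j * sin (M * t + j * (π / 2))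

lemma cj_deriv (M : ℝ) (j : ℕ) (t : ℝ) : HasDerivAt (cj M j) (cj M (j + 1) t) t := by
  have h1 : HasDerivAt (fun s => M * s + j * (π / 2)) (M * 1) t :=
    ((hasDerivAt_id t).const_mul M).add_const _
  have h2 := (h1.cos).const_mul (M ^ j)
  have h3 : cj M (j + 1) t = M ^ j * (-sin (M * t + j * (π / 2)) * (M * 1)) := by
    unfold cj
    have : M * t + ((j + 1 : ℕ) : ℝ) * (π / 2) = (M * t + j * (π / 2)) + π / 2 := by
      push_cast; ring
    rw [this, Real.cos_add_pi_div_two]
    ring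
  rw [h3]
  exact h2

lemma sj_deriv (M : ℝ) (j : ℕ) (t : ℝ) : HasDerivAt (sj M j) (sj M (j + 1) t) t := by
  have h1 : HasDerivAt (fun s => M * s + j * (π / 2)) (M * 1) t :=
    ((hasDerivAt_id t).const_mul M).add_const _
  have h2 := (h1.sin).const_mul (M ^ j)
  have h3 : sj M (j + 1) t = M ^ j * (cos (M * t + j * (π / 2)) * (M * 1)) := by
    unfold sj
    have : M * t + ((j + 1 : ℕ) : ℝ) * (π / 2) = (M * t + j * (π / 2)) + π / 2 := by
      push_cast; ring
    rw [this, Real.sin_add_pi_div_two]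
    ring
  rw [h3]
  exact h2

lemma cj_per (M : ℕ) (j : ℕ) (t : ℝ) : cj M j (t + 2 * π) = cj M j t := by
  unfold cj
  have : (M : ℝ) * (t + 2 * π) + j * (π / 2) = (M * t + j * (π / 2)) + M * (2 * π) := by ring
  rw [this, Real.cos_add_nat_mul_two_pi]

lemma sj_per (M : ℕ) (j : ℕ) (t : ℝ) : sj M j (t + 2 * π) = sj M j t := by
  unfold sj
  have : (M : ℝ) * (t + 2 * π) + j * (π / 2) = (M * t + j * (π / 2)) + M * (2 * π) := by ring
  rw [this, Real.sin_add_nat_mul_two_pi]

lemma cj_succ2 (M : ℝ) (j : ℕ) (t : ℝ) : cj M (j + 2) t = - M ^ 2 * cj M j t := by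
  unfold cj
  have : M * t + ((j + 2 : ℕ) : ℝ) * (π / 2) = (M * t + j * (π / 2)) + π := by
    push_cast; ring
  rw [this, Real.cos_add_pi]
  ring

lemma sj_succ2 (M : ℝ) (j : ℕ) (t : ℝ) : sj M (j + 2) t = - M ^ 2 * sj M j t := by
  unfold sj
  have : M * t + ((j + 2 : ℕ) : ℝ) * (π / 2) = (M * t + j * (π / 2)) + π := by
    push_cast; ring
  rw [this, Real.sin_add_pi]
  ring

lemma cj_zero (M t : ℝ) : cj M 0 t = cos (M * t) := by simp [cj]
lemma sj_zero (M t : ℝ) : sj M 0 t = sin (M * t) := by simp [sj]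
lemma cj_one (M t : ℝ) : cj M 1 t = -(M * sin (M * t)) := by
  simp [cj, Real.cos_add_pi_div_two]
lemma sj_one (M t : ℝ) : sj M 1 t = M * cos (M * t) := by
  simp [sj, Real.sin_add_pi_div_two]

lemma good_two : Good 2 := by
  refine ⟨fun j t => ![cj 1 j t, sj 1 j t], ?_, ?_, ?_, ?_⟩
  · intro j t i
    fin_cases i
    · exact cj_deriv 1 j t
    · exact sj_deriv 1 j t
  · intro t x hx
    have h1 := hx 1 le_rfl (by norm_num)
    have h2 := hx 2 (by norm_num) le_rfl
    simp only [Fin.sum_univ_two, Matrix.cons_val_zero, Matrix.cons_val_one] at h1 h2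
    rw [cj_one, sj_one] at h1
    have e1 : cj 1 2 t = - 1 ^ 2 * cj 1 0 t := cj_succ2 1 0 t
    have e2 : sj 1 2 t = - 1 ^ 2 * sj 1 0 t := sj_succ2 1 0 t
    rw [e1, e2, cj_zero, sj_zero] at h2
    simp only [one_mul] at h1 h2
    have hcs := Real.sin_sq_add_cos_sq t
    have h0 : x 0 = 0 := by
      linear_combination (-sin t) * h1 - cos t * h2 - x 0 * hcs
    have h1' : x 1 = 0 := by
      linear_combination (cos t) * h1 - sin t * h2 - x 1 * hcs
    funext i
    fin_cases i
    · exact h0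
    · exact h1'
  · intro j t i
    fin_cases i
    · have := cj_per 1 j t
      simpa using this
    · have := sj_per 1 j t
      simpa using this
  · intro t i
    fin_cases i <;> simp [cj_zero, sj_zero]

/-- The curve in `ℝ⁵`. -/
noncomputable def F5 (j : ℕ) (t : ℝ) : Fin 5 → ℝ :=
  ![cj 1 j t, sj 1 j t, 84 * sj 2 j t + sj 8 j t, 84 * cj 2 j t + cj 8 j t, sj 6 j t]

lemma good_five : Good 5 := by
  refine ⟨F5, ?_, ?_, ?_, ?_⟩
  · intro j t i
    fin_cases i
    · exact cj_deriv 1 j t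
    · exact sj_deriv 1 j t
    · exact ((sj_deriv 2 j t).const_mul 84).add (sj_deriv 8 j t)
    · exact ((cj_deriv 2 j t).const_mul 84).add (cj_deriv 8 j t)
    · exact sj_deriv 6 j t
  · intro t x hx
    have key : ∀ j, 1 ≤ j → j + 2 ≤ 5 →
        x 2 * (84 * (-3) * sj 2 j t + (-63) * sj 8 j t) +
          x 3 * (84 * (-3) * cj 2 j t + (-63) * cj 8 j t) + x 4 * ((-35) * sj 6 j t) = 0 := by
      intro j h1 h2
      have a1 := hx j h1 (by omega)
      have a2 := hx (j + 2) (by omega) h2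
      simp only [Fin.sum_univ_five, F5, Matrix.cons_val_zero, Matrix.cons_val_one,
        Matrix.cons_val] at a1 a2
      rw [cj_succ2, sj_succ2, cj_succ2, sj_succ2, cj_succ2, sj_succ2, sj_succ2] at a2
      linear_combination a1 + a2
    have k1 := key 1 le_rfl (by norm_num)
    have k2 := key 2 (by norm_num) (by norm_num)
    have k3 := key 3 (by norm_num) (by norm_num)
    have e2c : ∀ M : ℝ, cj M 2 t = - M ^ 2 * cj M 0 t := fun M => cj_succ2 M 0 t
    have e2s : ∀ M : ℝ, sj M 2 t = - M ^ 2 * sj M 0 t := fun M => sj_succ2 M 0 t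
    have e3c : ∀ M : ℝ, cj M 3 t = - M ^ 2 * cj M 1 t := fun M => cj_succ2 M 1 t
    have e3s : ∀ M : ℝ, sj M 3 t = - M ^ 2 * sj M 1 t := fun M => sj_succ2 M 1 t
    rw [e2c, e2c, e2s, e2s, e2s] at k2
    rw [e3c, e3c, e3s, e3s, e3s] at k3
    simp only [cj_one, sj_one, cj_zero, sj_zero] at k1 k2 k3
    have c8 : cos (8 * t) = cos (6 * t) * cos (2 * t) - sin (6 * t) * sin (2 * t) := by
      rw [← Real.cos_add]; ring_nf
    have s8 : sin (8 * t) = sin (6 * t) * cos (2 * t) + cos (6 * t) * sin (2 * t) := by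
      rw [← Real.sin_add]; ring_nf
    rw [c8, s8] at k1 k2 k3
    have hcs := Real.sin_sq_add_cos_sq (2 * t)
    have hCS := Real.sin_sq_add_cos_sq (6 * t)
    have hC1 := Real.cos_le_one (6 * t)
    have hC2 := Real.neg_one_le_cos (6 * t)
    generalize cos (2 * t) = c at *
    generalize sin (2 * t) = s at *
    generalize cos (6 * t) = C at *
    generalize sin (6 * t) = S at *
    -- rotated unknowns
    obtain ⟨a, ha⟩ : ∃ a, a = -x 2 * c + x 3 * s := ⟨_, rfl⟩
    obtain ⟨b, hb⟩ : ∃ b, b = x 2 * s + x 3 * c := ⟨_, rfl⟩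
    have q1 : 504 * (a * (1 + C) + b * S) - 210 * x 4 * C = 0 := by
      rw [ha, hb]; linear_combination k1
    have q2 : 504 * (-8 * S * a + (2 + 8 * C) * b) + 210 * 6 * x 4 * S = 0 := by
      rw [ha, hb]; linear_combination k2
    have q3 : 504 * (-(4 + 64 * C) * a - 64 * S * b) + 210 * 36 * x 4 * C = 0 := by
      rw [ha, hb]; linear_combination k3
    have hdet : -360 + 160 * C + 160 * C ^ 2 ≠ 0 := by
      have : C ^ 2 ≤ 1 := by nlinarith
      nlinarith
    have ra : a * (-360 + 160 * C + 160 * C ^ 2) = 0 := by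
      linear_combination ((2 + 8 * C) * (-36 * C) - 384 * S ^ 2) / 504 * q1
        + (-28 * S * C) / 504 * q2 + (-6 * S ^ 2 - C * (2 + 8 * C)) / 504 * q3
        - a * (-360 + 224 * C) * hCS
    have rb : b * (-360 + 160 * C + 160 * C ^ 2) = 0 := by
      linear_combination (96 * S * C + 24 * S) / 504 * q1
        + (-32 * C + 28 * C ^ 2) / 504 * q2 + (6 * S - 2 * S * C) / 504 * q3
        - b * (-360 + 224 * C) * hCS
    have rw' : (-210 * x 4) * (-360 + 160 * C + 160 * C ^ 2) = 0 := by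
      linear_combination (512 * S ^ 2 + 8 + 160 * C + 512 * C ^ 2) * q1
        + (60 * S) * q2 + (2 + 10 * C + 8 * C ^ 2 + 8 * S ^ 2) * q3
        - (-210 * x 4) * (-360 + 224 * C) * hCS
    have a0 : a = 0 := (mul_eq_zero.mp ra).resolve_right hdet
    have b0 : b = 0 := (mul_eq_zero.mp rb).resolve_right hdet
    have w0 : x 4 = 0 := by
      have := (mul_eq_zero.mp rw').resolve_right hdet
      linarith
    have x20 : x 2 = 0 := by
      linear_combination (-c) * (a0 - ha) + s * (b0 - hb) - x 2 * hcs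
    have x30 : x 3 = 0 := by
      linear_combination s * (a0 - ha) + c * (b0 - hb) - x 3 * hcs
    have b1 := hx 1 le_rfl (by norm_num)
    have b2 := hx 2 (by norm_num) (by norm_num)
    simp only [Fin.sum_univ_five, F5, Matrix.cons_val_zero, Matrix.cons_val_one,
        Matrix.cons_val, x20, x30, w0, zero_mul, add_zero] at b1 b2
    rw [e2c, e2s] at b2
    simp only [cj_one, sj_one, cj_zero, sj_zero, one_mul] at b1 b2
    have hcs1 := Real.sin_sq_add_cos_sq t
    have x00 : x 0 = 0 := by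
      linear_combination (-sin t) * b1 - cos t * b2 - x 0 * hcs1
    have x10 : x 1 = 0 := by
      linear_combination (cos t) * b1 - sin t * b2 - x 1 * hcs1
    funext i
    fin_cases i
    · exact x00
    · exact x10
    · exact x20
    · exact x30
    · exact w0
  · intro j t i
    have h1 := cj_per 1 j t
    have h2 := sj_per 1 j t
    have h3 := cj_per 2 j t
    have h4 := sj_per 2 j t
    have h5 := cj_per 8 j t
    have h6 := sj_per 8 j t
    have h7 := sj_per 6 j t
    push_cast at h1 h2 h3 h4 h5 h6 h7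
    fin_cases i <;> simp [F5, h1, h2, h3, h4, h5, h6, h7]
  · intro t i
    fin_cases i <;> simp [F5, cj_zero, sj_zero]


lemma Jet.cont {n : ℕ} {F : ℕ → ℝ → Fin n → ℝ} (hJ : Jet F) (j : ℕ) : Continuous (F j) := by
  apply continuous_pi
  intro i
  exact continuous_iff_continuousAt.mpr fun t => (hJ j t i).continuousAt

lemma Per.red {n : ℕ} {F : ℕ → ℝ → Fin n → ℝ} (hP : Per F) (t : ℝ) :
    ∃ t₀ ∈ Icc 0 (2 * π), ∀ j, F j t = F j t₀ := by
  have h : Function.Periodic (fun s => fun j => F j s) (2 * π) := by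
    intro s
    funext j i
    exact hP j s i
  obtain ⟨y, hy, e⟩ := h.exists_mem_Ico₀ (by positivity) t
  exact ⟨y, ⟨hy.1, hy.2.le⟩, fun j => congrFun e j⟩

lemma exists_lower {n : ℕ} {F : ℕ → ℝ → Fin n → ℝ} (hJ : Jet F) (hD : DNd F) (hP : Per F) :
    ∃ c > 0, ∀ t (x : Fin n → ℝ), c * ‖x‖ ≤ ∑ j ∈ Finset.Icc 1 n, |∑ i, x i * F j t i| := by
  rcases Nat.eq_zero_or_pos n with hn | hn
  · subst hn
    refine ⟨1, one_pos, fun t x => ?_⟩
    have : x = 0 := Subsingleton.elim _ _
    subst this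
    simp
  have : Inhabited (Fin n) := ⟨⟨0, hn⟩⟩
  have : Nontrivial (Fin n → ℝ) := Function.nontrivial
  let K : Set (ℝ × (Fin n → ℝ)) := Icc 0 (2 * π) ×ˢ Metric.sphere 0 1
  have hK : IsCompact K := isCompact_Icc.prod (isCompact_sphere _ _)
  let f : ℝ × (Fin n → ℝ) → ℝ := fun p => ∑ j ∈ Finset.Icc 1 n, |∑ i, p.2 i * F j p.1 i|
  have hf : Continuous f := by
    apply continuous_finsetSum
    intro j _
    apply Continuous.abs
    apply continuous_finsetSum
    intro i _
    have h1 : Continuous (fun p : ℝ × (Fin n → ℝ) => F j p.1 i) :=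
      (continuous_apply i).comp ((hJ.cont j).comp continuous_fst)
    have h2 : Continuous (fun p : ℝ × (Fin n → ℝ) => p.2 i) :=
      (continuous_apply i).comp continuous_snd
    exact h2.mul h1
  have hne : K.Nonempty := by
    obtain ⟨v, hv⟩ := (NormedSpace.sphere_nonempty (x := (0 : Fin n → ℝ)) (r := 1)).mpr zero_le_one
    exact ⟨(0, v), ⟨⟨le_rfl, by positivity⟩, hv⟩⟩
  obtain ⟨p, hp, hmin⟩ := hK.exists_isMinOn hne hf.continuousOn
  have hpos : 0 < f p := by
    have h0 : 0 ≤ f p := Finset.sum_nonneg fun j _ => abs_nonneg _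
    rcases h0.lt_or_eq with h | h
    · exact h
    · exfalso
      have h1 := (Finset.sum_eq_zero_iff_of_nonneg (fun j _ => abs_nonneg _)).mp h.symm
      have h2 : p.2 = 0 := by
        apply hD p.1 p.2
        intro j hj1 hj2
        exact abs_eq_zero.mp (h1 j (Finset.mem_Icc.mpr ⟨hj1, hj2⟩))
      have h3 : ‖p.2‖ = 1 := by simpa using hp.2
      rw [h2, norm_zero] at h3
      exact zero_ne_one h3
  refine ⟨f p, hpos, fun t x => ?_⟩
  by_cases hx : x = 0
  · subst hx; simp
  have hxn : 0 < ‖x‖ := norm_pos_iff.mpr hx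
  obtain ⟨t₀, ht₀, ht⟩ := hP.red t
  have hmem : (t₀, ‖x‖⁻¹ • x) ∈ K := by
    refine ⟨ht₀, ?_⟩
    simp only [mem_sphere_iff_norm, sub_zero, norm_smul, norm_inv, norm_norm]
    exact inv_mul_cancel₀ hxn.ne'
  have h1 : f p ≤ f (t₀, ‖x‖⁻¹ • x) := hmin hmem
  have h2 : f (t₀, ‖x‖⁻¹ • x) = ‖x‖⁻¹ * ∑ j ∈ Finset.Icc 1 n, |∑ i, x i * F j t i| := by
    show ∑ j ∈ Finset.Icc 1 n, |∑ i, (‖x‖⁻¹ • x) i * F j t₀ i| = _
    rw [Finset.mul_sum]
    apply Finset.sum_congr rfl
    intro j _
    rw [ht j]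
    have : ∑ i, (‖x‖⁻¹ • x) i * F j t₀ i = ‖x‖⁻¹ * ∑ i, x i * F j t₀ i := by
      rw [Finset.mul_sum]
      apply Finset.sum_congr rfl
      intro i _
      simp only [Pi.smul_apply, smul_eq_mul]
      ring
    rw [this, abs_mul, abs_of_pos (inv_pos.mpr hxn)]
  rw [h2] at h1
  calc f p * ‖x‖ ≤ (‖x‖⁻¹ * ∑ j ∈ Finset.Icc 1 n, |∑ i, x i * F j t i|) * ‖x‖ :=
        mul_le_mul_of_nonneg_right h1 hxn.le
    _ = _ := by field_simp

lemma exists_upper {n : ℕ} {F : ℕ → ℝ → Fin n → ℝ} (hJ : Jet F) (hP : Per F) (j : ℕ) :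
    ∃ B > 0, ∀ t (x : Fin n → ℝ), |∑ i, x i * F j t i| ≤ B * ‖x‖ := by
  obtain ⟨C, hC⟩ := (isCompact_Icc (a := (0 : ℝ)) (b := 2 * π)).exists_bound_of_continuousOn
    (hJ.cont j).continuousOn
  refine ⟨n * |C| + 1, by positivity, fun t x => ?_⟩
  obtain ⟨t₀, ht₀, ht⟩ := hP.red t
  rw [ht j]
  have h1 : ∀ i, |x i * F j t₀ i| ≤ |C| * ‖x‖ := by
    intro i
    rw [abs_mul, mul_comm]
    apply mul_le_mul _ _ (abs_nonneg _) (abs_nonneg _)
    · exact (norm_le_pi_norm (F j t₀) i).trans ((hC t₀ ht₀).trans (le_abs_self _))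
    · exact norm_le_pi_norm x i
  calc |∑ i, x i * F j t₀ i| ≤ ∑ i, |x i * F j t₀ i| := Finset.abs_sum_le_sum_abs _ _
    _ ≤ ∑ _i : Fin n, |C| * ‖x‖ := Finset.sum_le_sum fun i _ => h1 i
    _ = n * |C| * ‖x‖ := by simp [mul_assoc]
    _ ≤ (n * |C| + 1) * ‖x‖ := by
        apply mul_le_mul_of_nonneg_right _ (norm_nonneg _)
        linarith

lemma cs_bound (M : ℝ) (hM : 1 ≤ M) (y z t : ℝ) (j : ℕ) :
    |y * cj M j t + z * sj M j t| ≤
      M ^ j * (|y * cos (M * t) + z * sin (M * t)| + |z * cos (M * t) - y * sin (M * t)|) := by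
  have key : ∀ j : ℕ, |y * cj M j t + z * sj M j t| ≤
      M ^ j * (|y * cos (M * t) + z * sin (M * t)| + |z * cos (M * t) - y * sin (M * t)|) ∧
      |y * cj M (j + 1) t + z * sj M (j + 1) t| ≤
      M ^ (j + 1) * (|y * cos (M * t) + z * sin (M * t)| +
        |z * cos (M * t) - y * sin (M * t)|) := by
    intro j
    induction j with
    | zero =>
      constructor
      · rw [cj_zero, sj_zero, pow_zero, one_mul]
        linarith [abs_nonneg (z * cos (M * t) - y * sin (M * t))]
      · rw [cj_one, sj_one, zero_add, pow_one]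
        have : y * -(M * sin (M * t)) + z * (M * cos (M * t)) =
            M * (z * cos (M * t) - y * sin (M * t)) := by ring
        rw [this, abs_mul, abs_of_pos (by linarith : (0 : ℝ) < M)]
        apply mul_le_mul_of_nonneg_left _ (by linarith)
        linarith [abs_nonneg (y * cos (M * t) + z * sin (M * t))]
    | succ j ih =>
      refine ⟨ih.2, ?_⟩
      rw [cj_succ2, sj_succ2]
      have : y * (-M ^ 2 * cj M j t) + z * (-M ^ 2 * sj M j t) =
          -(M ^ 2 * (y * cj M j t + z * sj M j t)) := by ring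
      rw [this, abs_neg, abs_mul, abs_of_nonneg (sq_nonneg M)]
      calc M ^ 2 * |y * cj M j t + z * sj M j t| ≤ M ^ 2 * (M ^ j *
            (|y * cos (M * t) + z * sin (M * t)| + |z * cos (M * t) - y * sin (M * t)|)) :=
            mul_le_mul_of_nonneg_left ih.1 (sq_nonneg M)
        _ = _ := by ring
  exact (key j).1

lemma cs_eq (M : ℝ) (hM0 : 0 < M) (y z t : ℝ) (j : ℕ) :
    M * |y * cj M j t + z * sj M j t| + |y * cj M (j + 1) t + z * sj M (j + 1) t| =
      M ^ (j + 1) *
        (|y * cos (M * t) + z * sin (M * t)| + |z * cos (M * t) - y * sin (M * t)|) := by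
  induction j with
  | zero =>
    rw [cj_zero, sj_zero, cj_one, sj_one, zero_add, pow_one]
    have : y * -(M * sin (M * t)) + z * (M * cos (M * t)) =
        M * (z * cos (M * t) - y * sin (M * t)) := by ring
    rw [this, abs_mul, abs_of_pos hM0]
    ring
  | succ j ih =>
    have e : |y * cj M (j + 1 + 1) t + z * sj M (j + 1 + 1) t| =
        M ^ 2 * |y * cj M j t + z * sj M j t| := by
      rw [show j + 1 + 1 = j + 2 from rfl, cj_succ2, sj_succ2]
      have : y * (-M ^ 2 * cj M j t) + z * (-M ^ 2 * sj M j t) =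
          -(M ^ 2 * (y * cj M j t + z * sj M j t)) := by ring
      rw [this, abs_neg, abs_mul, abs_of_nonneg (sq_nonneg M)]
    rw [e]
    linear_combination M * ih

/-- Adding a rapidly rotating plane keeps nondegeneracy. -/
lemma good_step {n : ℕ} (h2 : 2 ≤ n) (h : Good n) : Good (n + 2) := by
  obtain ⟨F, hJ, hD, hP, hC⟩ := h
  obtain ⟨c, hc, hlow⟩ := exists_lower hJ hD hP
  obtain ⟨B₁, hB₁, hup₁⟩ := exists_upper hJ hP (n + 1)
  obtain ⟨B₂, hB₂, hup₂⟩ := exists_upper hJ hP (n + 2)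
  obtain ⟨M, hM⟩ := exists_nat_gt (max 1 (n * (B₁ + B₂) / c))
  have hM1 : (1 : ℝ) < M := (le_max_left _ _).trans_lt hM
  have hM2 : n * (B₁ + B₂) < c * M := by
    have := (le_max_right _ _).trans_lt hM
    rw [div_lt_iff₀ hc] at this
    linarith
  have hM0 : (0 : ℝ) < M := by linarith
  refine ⟨fun j t => Fin.snoc (Fin.snoc (F j t) (cj M j t) : Fin (n + 1) → ℝ) (sj M j t),
    ?_, ?_, ?_, ?_⟩
  · intro j t i
    refine Fin.lastCases ?_ (fun i => ?_) i
    · simp only [Fin.snoc_last]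
      exact sj_deriv M j t
    · simp only [Fin.snoc_castSucc]
      refine Fin.lastCases ?_ (fun i => ?_) i
      · simp only [Fin.snoc_last]
        exact cj_deriv M j t
      · simp only [Fin.snoc_castSucc]
        exact hJ j t i
  · intro t x hx
    set x' : Fin n → ℝ := fun i => x i.castSucc.castSucc with hx'
    set y := x (Fin.castSucc (Fin.last n)) with hy
    set z := x (Fin.last (n + 1)) with hz
    have hE : ∀ j, 1 ≤ j → j ≤ n + 2 →
        ∑ i, x' i * F j t i = -(y * cj M j t + z * sj M j t) := by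
      intro j hj1 hj2
      have := hx j hj1 hj2
      simp only [Fin.sum_univ_castSucc, Fin.snoc_last, Fin.snoc_castSucc] at this
      linear_combination this
    set W := |y * cos (M * t) + z * sin (M * t)| + |z * cos (M * t) - y * sin (M * t)| with hW
    have hW0 : 0 ≤ W := by positivity
    have hW1 : (M : ℝ) ^ (n + 2) * W ≤ (M * B₁ + B₂) * ‖x'‖ := by
      rw [hW, ← cs_eq M hM0 y z t (n + 1)]
      have a1 : |y * cj M (n + 1) t + z * sj M (n + 1) t| ≤ B₁ * ‖x'‖ := by
        have := hup₁ t x'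
        rwa [hE (n + 1) (by omega) (by omega), abs_neg] at this
      have a2 : |y * cj M (n + 1 + 1) t + z * sj M (n + 1 + 1) t| ≤ B₂ * ‖x'‖ := by
        have := hup₂ t x'
        rwa [hE (n + 2) (by omega) (by omega), abs_neg] at this
      have := mul_le_mul_of_nonneg_left a1 hM0.le
      nlinarith
    have hsum : c * ‖x'‖ ≤ n * ((M : ℝ) ^ n * W) := by
      refine (hlow t x').trans ?_
      calc ∑ j ∈ Finset.Icc 1 n, |∑ i, x' i * F j t i|
          ≤ ∑ _j ∈ Finset.Icc 1 n, (M : ℝ) ^ n * W := by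
            apply Finset.sum_le_sum
            intro j hj
            rw [Finset.mem_Icc] at hj
            rw [hE j hj.1 (by omega), abs_neg]
            refine (cs_bound M hM1.le y z t j).trans ?_
            exact mul_le_mul_of_nonneg_right (pow_le_pow_right₀ hM1.le hj.2) hW0
        _ = n * ((M : ℝ) ^ n * W) := by simp
    have hx0 : ‖x'‖ = 0 := by
      by_contra hne
      have hpos : 0 < ‖x'‖ := lt_of_le_of_ne (norm_nonneg _) (Ne.symm hne)
      have b1 : (M : ℝ) ^ 2 * (c * ‖x'‖) ≤ n * ((M : ℝ) ^ (n + 2) * W) := by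
        calc (M : ℝ) ^ 2 * (c * ‖x'‖) ≤ (M : ℝ) ^ 2 * (n * ((M : ℝ) ^ n * W)) :=
              mul_le_mul_of_nonneg_left hsum (sq_nonneg _)
          _ = _ := by ring
      have b2 : (n : ℝ) * ((M : ℝ) ^ (n + 2) * W) ≤ n * ((M * B₁ + B₂) * ‖x'‖) :=
        mul_le_mul_of_nonneg_left hW1 (Nat.cast_nonneg n)
      have b3 : (M : ℝ) ^ 2 * c * ‖x'‖ ≤ (n * (M * B₁ + B₂)) * ‖x'‖ := by
        linarith
      have b4 : (M : ℝ) ^ 2 * c ≤ n * (M * B₁ + B₂) := le_of_mul_le_mul_right b3 hpos
      have b5 : (n : ℝ) * (M * B₁ + B₂) ≤ M * (n * (B₁ + B₂)) := by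
        have : (n : ℝ) * B₂ ≤ n * (M * B₂) := by
          apply mul_le_mul_of_nonneg_left _ (Nat.cast_nonneg n)
          nlinarith
        nlinarith
      have b6 : M * (n * (B₁ + B₂)) < M * (c * M) := mul_lt_mul_of_pos_left hM2 hM0
      nlinarith
    have hx'0 : x' = 0 := norm_eq_zero.mp hx0
    have hW00 : W = 0 := by
      rw [hx0, mul_zero] at hW1
      have : (0 : ℝ) < (M : ℝ) ^ (n + 2) := by positivity
      have := le_of_mul_le_mul_left (by linarith : (M : ℝ) ^ (n + 2) * W ≤ (M : ℝ) ^ (n + 2) * 0)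
        this
      linarith
    have hu : y * cos (M * t) + z * sin (M * t) = 0 := by
      have := abs_nonneg (y * cos (M * t) + z * sin (M * t))
      have := abs_nonneg (z * cos (M * t) - y * sin (M * t))
      exact abs_eq_zero.mp (by linarith)
    have hv : z * cos (M * t) - y * sin (M * t) = 0 := by
      have := abs_nonneg (y * cos (M * t) + z * sin (M * t))
      have := abs_nonneg (z * cos (M * t) - y * sin (M * t))
      exact abs_eq_zero.mp (by linarith)
    have hcs := Real.sin_sq_add_cos_sq (M * t)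
    have hy0 : y = 0 := by
      linear_combination cos (M * t) * hu - sin (M * t) * hv - y * hcs
    have hz0 : z = 0 := by
      linear_combination sin (M * t) * hu + cos (M * t) * hv - z * hcs
    funext i
    refine Fin.lastCases ?_ (fun i => ?_) i
    · exact hz0
    · refine Fin.lastCases ?_ (fun i => ?_) i
      · exact hy0
      · exact congrFun hx'0 i
  · intro j t i
    refine Fin.lastCases ?_ (fun i => ?_) i
    · simp only [Fin.snoc_last]
      exact sj_per M j t
    · simp only [Fin.snoc_castSucc]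
      refine Fin.lastCases ?_ (fun i => ?_) i
      · simp only [Fin.snoc_last]
        exact cj_per M j t
      · simp only [Fin.snoc_castSucc]
        exact hP j t i
  · intro t i
    refine Fin.lastCases ?_ (fun i => ?_) i
    · constructor
      · intro h; simp at h
      · intro h; simp at h; omega
    · simp only [Fin.snoc_castSucc]
      refine Fin.lastCases ?_ (fun i => ?_) i
      · constructor
        · intro h; simp at h; omega
        · intro h; simp at h; omega
      · simp only [Fin.snoc_castSucc, Fin.val_castSucc]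
        exact hC t i

lemma good_all {n : ℕ} (hn : 4 ≤ n) : Good n := by
  have key : ∀ k : ℕ, Good (2 + 2 * k) ∧ Good (5 + 2 * k) := by
    intro k
    induction k with
    | zero => exact ⟨good_two, good_five⟩
    | succ k ih =>
      have h1 := good_step (n := 2 + 2 * k) (by omega) ih.1
      have h2 := good_step (n := 5 + 2 * k) (by omega) ih.2
      exact ⟨h1, h2⟩
  rcases Nat.even_or_odd n with h | h
  · obtain ⟨r, hr⟩ := h
    have := (key (r - 1)).1
    rwa [show 2 + 2 * (r - 1) = n by omega] at this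
  · obtain ⟨r, hr⟩ := h
    have := (key (r - 2)).2
    rwa [show 5 + 2 * (r - 2) = n by omega] at this

end Pool.Agent.Helper255.Nd
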