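import Mathlib

set_option autoImplicit false

open Real Set Filter Topology InnerProductGeometry

namespace Pool.Agent.Helper255.Nd

variable {E : Type*} [NormedAddCommGroup E] [InnerProductSpace ℝ E]

/-- The angle between two points of a curve on the unit sphere is at most the length of the
curve between them. -/
lemma angle_le_length {T T' : ℝ → E} (hT : ∀ t, HasDerivAt T (T' t) t) (hc : Continuous T')
    (h1 : ∀ t, ‖T t‖ = 1) {a b : ℝ} (hab : a ≤ b) :
    angle (T a) (T b) ≤ ∫ t in a..b, ‖T' t‖ := by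
  have hTc : Continuous T := continuous_iff_continuousAt.mpr fun t => (hT t).continuousAt
  have hne : ∀ t, T t ≠ 0 := fun t h => by
    have := h1 t
    rw [h, norm_zero] at this
    exact zero_ne_one this
  have hang : Continuous fun p : ℝ × ℝ => angle (T p.1) (T p.2) := by
    rw [continuous_iff_continuousAt]
    intro p
    have := continuousAt_angle (x := (T p.1, T p.2)) (hne _) (hne _)
    exact ContinuousAt.comp (g := fun y : E × E => angle y.1 y.2)
      (f := fun p : ℝ × ℝ => (T p.1, T p.2)) this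
      ((hTc.comp continuous_fst).prodMk (hTc.comp continuous_snd)).continuousAt
  have hB : ∀ x, HasDerivAt (fun y => ∫ t in a..y, ‖T' t‖) ‖T' x‖ x := fun x =>
    intervalIntegral.integral_hasDerivAt_right (hc.norm.intervalIntegrable _ _)
      (hc.norm.stronglyMeasurableAtFilter _ _) hc.norm.continuousAt
  refine image_le_of_liminf_slope_right_le_deriv_boundary (f := fun x => angle (T a) (T x))
    (B := fun y => ∫ t in a..y, ‖T' t‖) (B' := fun x => ‖T' x‖) (a := a) (b := b) ?_ ?_ ?_ ?_ ?_
    ⟨hab, le_rfl⟩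
  · exact (hang.comp (continuous_const.prodMk continuous_id)).continuousOn
  · simp [angle_self (hne a)]
  · exact (continuous_iff_continuousAt.mpr fun x => (hB x).continuousAt).continuousOn
  · intro x _
    exact (hB x).hasDerivWithinAt
  · intro x _ r hr
    apply Eventually.frequently
    obtain ⟨q, hq1, hq2⟩ := exists_between hr
    have hq0 : 0 ≤ q := (norm_nonneg _).trans hq1.le
    have hr0 : 0 < r := hq0.trans_lt hq2
    have e1 : ∀ᶠ z in 𝓝[>] x, ‖z - x‖⁻¹ * ‖T z - T x‖ < q :=
      ((hT x).hasDerivWithinAt (s := Ioi x)).limsup_norm_slope_le hq1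
    have e2 : ∀ᶠ z in 𝓝[>] x, z ∈ Ioi x := self_mem_nhdsWithin
    have hδ : ∃ δ > 0, ∀ h : ℝ, 0 < h → h < δ → r * h < 1 ∧ r ^ 4 * h ^ 2 < r ^ 2 - q ^ 2 := by
      have hp : 0 < r ^ 2 - q ^ 2 := by nlinarith
      refine ⟨min (1 / r) (Real.sqrt ((r ^ 2 - q ^ 2) / r ^ 4)), lt_min (by positivity)
        (Real.sqrt_pos.mpr (by positivity)), fun h h0 h1 => ⟨?_, ?_⟩⟩
      · have := h1.trans_le (min_le_left _ _)
        rw [lt_div_iff₀ hr0] at this
        linarith
      · have h2 := h1.trans_le (min_le_right _ _)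
        have h3 : h ^ 2 < (r ^ 2 - q ^ 2) / r ^ 4 := by
          rwa [Real.lt_sqrt h0.le] at h2
        rw [lt_div_iff₀ (by positivity)] at h3
        linarith
    obtain ⟨δ, hδ0, hδ⟩ := hδ
    have e3 : ∀ᶠ z in 𝓝[>] x, z < x + δ :=
      nhdsWithin_le_nhds (Iio_mem_nhds (by linarith))
    filter_upwards [e1, e2, e3] with z hz1 hz2 hz3
    rw [mem_Ioi] at hz2
    have hh : 0 < z - x := sub_pos.mpr hz2
    obtain ⟨hd1, hd2⟩ := hδ (z - x) hh (by linarith)
    set h := z - x with hhdef
    have hchord : ‖T z - T x‖ < q * h := by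
      rw [Real.norm_of_nonneg hh.le, inv_mul_lt_iff₀ hh] at hz1
      linarith
    -- the angle between `T x` and `T z`
    have hangle : angle (T x) (T z) < r * h := by
      by_contra hcon
      push Not at hcon
      have hc1 : Real.cos (angle (T x) (T z)) ≤ Real.cos (r * h) := by
        apply Real.cos_le_cos_of_nonneg_of_le_pi (by positivity) (angle_le_pi _ _) hcon
      have hc2 : Real.cos (angle (T x) (T z)) = inner ℝ (T x) (T z) := by
        rw [cos_angle, h1, h1]; simp
      have hc3 : ‖T z - T x‖ ^ 2 = 2 - 2 * inner ℝ (T x) (T z) := by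
        rw [@norm_sub_sq ℝ, h1, h1, real_inner_comm]
        simp only [RCLike.re_to_real]
        ring
      have hc4 : ‖T z - T x‖ ^ 2 < (q * h) ^ 2 := by
        apply pow_lt_pow_left₀ hchord (norm_nonneg _) two_ne_zero
      have hc5 := Real.cos_bound (x := r * h) (by rw [abs_of_nonneg (by positivity)]; exact hd1.le)
      rw [abs_of_nonneg (show 0 ≤ r * h by positivity)] at hc5
      have hc6 := (abs_le.mp hc5).2
      have hh2 : 0 < h ^ 2 := by positivity
      have hc7 : r ^ 4 * h ^ 2 * h ^ 2 < (r ^ 2 - q ^ 2) * h ^ 2 :=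
        mul_lt_mul_of_pos_right hd2 hh2
      nlinarith
    have htri : angle (T a) (T z) ≤ angle (T a) (T x) + angle (T x) (T z) :=
      angle_le_angle_add_angle _ _ _
    rw [slope_def_field, div_lt_iff₀ hh]
    linarith

/-- **Fenchel's theorem.** -/
lemma fenchel {γ T T' : ℝ → E} {v : ℝ → ℝ} (hγ : ∀ t, HasDerivAt γ (v t • T t) t)
    (hv : ∀ t, 0 < v t) (hT : ∀ t, HasDerivAt T (T' t) t) (hc : Continuous T')
    (h1 : ∀ t, ‖T t‖ = 1) {L : ℝ} (hL : 0 < L) (hγL : γ L = γ 0) (hTL : T L = T 0) :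
    2 * π ≤ ∫ t in (0 : ℝ)..L, ‖T' t‖ := by
  by_contra hcon
  push Not at hcon
  have hint : ∀ a b, IntervalIntegrable (fun t => ‖T' t‖) MeasureTheory.volume a b :=
    fun a b => hc.norm.intervalIntegrable _ _
  set ℓ : ℝ → ℝ := fun y => ∫ t in (0 : ℝ)..y, ‖T' t‖ with hℓ
  have hB : ∀ x, HasDerivAt ℓ ‖T' x‖ x := fun x =>
    intervalIntegral.integral_hasDerivAt_right (hint _ _)
      (hc.norm.stronglyMeasurableAtFilter _ _) hc.norm.continuousAt
  have hℓc : Continuous ℓ := continuous_iff_continuousAt.mpr fun x => (hB x).continuousAt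
  have hℓ0 : ℓ 0 = 0 := by simp [hℓ]
  have hLn : 0 ≤ ℓ L := intervalIntegral.integral_nonneg hL.le fun t _ => norm_nonneg _
  obtain ⟨m, hm, hm2⟩ : ∃ m ∈ Icc 0 L, ℓ m = ℓ L / 2 := by
    have := intermediate_value_Icc hL.le hℓc.continuousOn
    have hmem : ℓ L / 2 ∈ Icc (ℓ 0) (ℓ L) := ⟨by rw [hℓ0]; linarith, by linarith⟩
    obtain ⟨m, hm, h⟩ := this hmem
    exact ⟨m, hm, h⟩
  have hhalf : ℓ L / 2 < π := by
    have : ℓ L < 2 * π := hcon
    linarith
  have hsub : ∀ a b, ∫ t in a..b, ‖T' t‖ = ℓ b - ℓ a := by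
    intro a b
    rw [hℓ]
    simp only
    rw [intervalIntegral.integral_interval_sub_left (hint _ _) (hint _ _)]
  have hang : ∀ a b, a ≤ b → angle (T a) (T b) ≤ ℓ b - ℓ a := by
    intro a b hab
    rw [← hsub]
    exact angle_le_length hT hc h1 hab
  have hcos : ∀ x y z : E, ‖x‖ = 1 → ‖y‖ = 1 → ‖z‖ = 1 → angle x y + angle y z < π →
      0 < inner ℝ y (x + z) := by
    intro x y z hx hy hz h
    have e1 : Real.cos (angle x y) = inner ℝ x y := by rw [cos_angle, hx, hy]; simp
    have e2 : Real.cos (angle y z) = inner ℝ y z := by rw [cos_angle, hz, hy]; simp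
    have e3 : Real.cos (π - angle y z) < Real.cos (angle x y) := by
      apply Real.cos_lt_cos_of_nonneg_of_le_pi (angle_nonneg _ _)
      · linarith [angle_nonneg y z]
      · linarith
    rw [Real.cos_pi_sub, e1, e2] at e3
    rw [inner_add_right, real_inner_comm]
    linarith
  have hpos : ∀ t ∈ Icc 0 L, 0 < inner ℝ (T t) (T 0 + T m) := by
    intro t ht
    rcases le_total t m with h | h
    · apply hcos _ _ _ (h1 _) (h1 _) (h1 _)
      have a1 := hang 0 t ht.1
      have a2 := hang t m h
      rw [hℓ0] at a1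
      linarith
    · rw [add_comm]
      apply hcos _ _ _ (h1 _) (h1 _) (h1 _)
      have a1 := hang m t h
      have a2 := hang t L ht.2
      rw [hTL] at a2
      linarith
  -- the height function is strictly increasing
  set w := T 0 + T m with hw
  have hder : ∀ t, HasDerivAt (fun s => inner ℝ (γ s) w) (v t * inner ℝ (T t) w) t := by
    intro t
    have := (hγ t).inner ℝ (hasDerivAt_const t w)
    simpa [inner_smul_left] using this
  have hmono : StrictMonoOn (fun s => inner ℝ (γ s) w) (Icc 0 L) := by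
    apply strictMonoOn_of_deriv_pos (convex_Icc 0 L)
    · exact (continuous_iff_continuousAt.mpr fun t => (hder t).continuousAt).continuousOn
    · intro t ht
      rw [interior_Icc] at ht
      rw [(hder t).deriv]
      exact mul_pos (hv t) (hpos t (Ioo_subset_Icc_self ht))
  have := hmono ⟨le_rfl, hL.le⟩ ⟨hL.le, le_rfl⟩ hL
  simp only [hγL, lt_irrefl] at this

end Pool.Agent.Helper255.Nd
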