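import Mathlib

set_option autoImplicit false

open Real Set Filter Topology InnerProductSpace

namespace Pool.Agent.Helper255.Nd

variable {E : Type*} [NormedAddCommGroup E] [InnerProductSpace ℝ E]

/-- Gram-Schmidt vectors of the family `G 0 t, …, G (n-1) t`. -/
noncomputable abbrev gs (n : ℕ) (G : ℕ → ℝ → E) (t : ℝ) (i : Fin n) : E :=
  gramSchmidt ℝ (fun j : Fin n => G j t) i

noncomputable abbrev gn (n : ℕ) (G : ℕ → ℝ → E) (t : ℝ) (i : Fin n) : E :=
  gramSchmidtNormed ℝ (fun j : Fin n => G j t) i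

lemma gs_deriv {n : ℕ} {G : ℕ → ℝ → E} (hG : ∀ k t, HasDerivAt (G k) (G (k + 1) t) t)
    (hli : ∀ t, LinearIndependent ℝ (fun j : Fin n => G j t)) (i : Fin n) :
    ∀ t, ∃ D, HasDerivAt (fun s => gs n G s i) D t ∧
      D - G (i + 1) t ∈ Submodule.span ℝ (gs n G t '' Set.Iic i) := by
  induction i using WellFoundedLT.induction with
  | ind i ih =>
    intro t
    -- derivatives of the previous vectors
    have hprev : ∀ k : Fin n, ∃ D, k < i → HasDerivAt (fun s => gs n G s k) D t ∧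
        D - G (k + 1) t ∈ Submodule.span ℝ (gs n G t '' Set.Iic k) := by
      intro k
      by_cases hk : k < i
      · obtain ⟨D, hD⟩ := ih k hk t
        exact ⟨D, fun _ => hD⟩
      · exact ⟨0, fun h => absurd h hk⟩
    choose D hD using hprev
    -- coefficient functions
    have hcoef : ∀ k : Fin n, ∃ c', k < i → HasDerivAt
        (fun s => inner ℝ (gs n G s k) (G i s) / ‖gs n G s k‖ ^ 2) c' t := by
      intro k
      by_cases hk : k < i
      · have hne : gs n G t k ≠ 0 := gramSchmidt_ne_zero k (hli t)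
        have h1 := (hD k hk).1.inner ℝ (hG i t)
        have h2 := (hD k hk).1.norm_sq
        exact ⟨_, fun _ => h1.div h2 (pow_ne_zero 2 (norm_ne_zero_iff.mpr hne))⟩
      · exact ⟨0, fun h => absurd h hk⟩
    choose c' hc' using hcoef
    refine ⟨G (i + 1) t - ∑ k ∈ Finset.Iio i, ((inner ℝ (gs n G t k) (G i t) / ‖gs n G t k‖ ^ 2) •
      D k + c' k • gs n G t k), ?_, ?_⟩
    · have hfun : (fun s => gs n G s i) = fun s => G i s - ∑ k ∈ Finset.Iio i,
          (inner ℝ (gs n G s k) (G i s) / ‖gs n G s k‖ ^ 2) • gs n G s k := by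
        funext s
        have := gramSchmidt_def'' ℝ (fun j : Fin n => G j s) i
        simp only [RCLike.ofReal_real_eq_id, id] at this
        exact eq_sub_of_add_eq this.symm
      rw [hfun]
      apply (hG i t).sub
      have := HasDerivAt.fun_sum (u := Finset.Iio i) (x := t)
        (A := fun k s => (inner ℝ (gs n G s k) (G i s) / ‖gs n G s k‖ ^ 2) • gs n G s k)
        (A' := fun k => (inner ℝ (gs n G t k) (G i t) / ‖gs n G t k‖ ^ 2) • D k +
          c' k • gs n G t k) ?_
      · exact this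
      · intro k hk
        rw [Finset.mem_Iio] at hk
        exact (hc' k hk).fun_smul (hD k hk).1
    · have hG1 : ∀ k : Fin n, k < i → G (k + 1) t ∈ Submodule.span ℝ (gs n G t '' Set.Iic i) := by
        intro k hk
        have hk1 : (k : ℕ) + 1 < n := lt_of_le_of_lt (Nat.succ_le_of_lt hk) i.2
        have := mem_span_gramSchmidt ℝ (fun j : Fin n => G j t) (i := ⟨k + 1, hk1⟩) (j := i)
          (Fin.le_def.mpr (Nat.succ_le_of_lt hk))
        exact this
      have hmono : ∀ k : Fin n, k < i → Submodule.span ℝ (gs n G t '' Set.Iic k) ≤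
          Submodule.span ℝ (gs n G t '' Set.Iic i) := by
        intro k hk
        exact Submodule.span_mono (Set.image_mono (Set.Iic_subset_Iic.mpr hk.le))
      have e : G (i + 1) t - ∑ k ∈ Finset.Iio i,
          ((inner ℝ (gs n G t k) (G i t) / ‖gs n G t k‖ ^ 2) • D k + c' k • gs n G t k) -
          G (i + 1) t = -∑ k ∈ Finset.Iio i,
          ((inner ℝ (gs n G t k) (G i t) / ‖gs n G t k‖ ^ 2) • D k + c' k • gs n G t k) := by
        abel
      rw [e]
      apply Submodule.neg_mem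
      apply Submodule.sum_mem
      intro k hk
      rw [Finset.mem_Iio] at hk
      apply Submodule.add_mem
      · apply Submodule.smul_mem
        have h1 := hmono k hk (hD k hk).2
        have h2 := hG1 k hk
        have := Submodule.add_mem _ h1 h2
        simpa using this
      · apply Submodule.smul_mem
        exact Submodule.subset_span ⟨k, hk.le, rfl⟩

lemma gs_cont {n : ℕ} {G : ℕ → ℝ → E} (hG : ∀ k t, HasDerivAt (G k) (G (k + 1) t) t)
    (hli : ∀ t, LinearIndependent ℝ (fun j : Fin n => G j t)) (i : Fin n) :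
    Continuous (fun s => gs n G s i) := by
  rw [continuous_iff_continuousAt]
  intro t
  obtain ⟨D, hD, _⟩ := gs_deriv hG hli i t
  exact hD.continuousAt

lemma gs_norm_pos {n : ℕ} {G : ℕ → ℝ → E}
    (hli : ∀ t, LinearIndependent ℝ (fun j : Fin n => G j t)) (i : Fin n) (t : ℝ) :
    0 < ‖gs n G t i‖ :=
  norm_pos_iff.mpr (gramSchmidt_ne_zero i (hli t))

/-- inner product with later vectors vanishes on the span of earlier ones -/
lemma inner_span_zero {n : ℕ} {G : ℕ → ℝ → E} {t : ℝ} {i j : Fin n} (hij : i < j) {x : E}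
    (hx : x ∈ Submodule.span ℝ (gs n G t '' Set.Iic i)) : inner ℝ x (gs n G t j) = 0 := by
  induction hx using Submodule.span_induction with
  | mem y hy =>
    obtain ⟨k, hk, rfl⟩ := hy
    exact gramSchmidt_orthogonal ℝ _ (ne_of_lt (lt_of_le_of_lt hk hij))
  | zero => exact inner_zero_left _
  | add y z _ _ hy hz => rw [inner_add_left, hy, hz, add_zero]
  | smul a y _ hy => rw [inner_smul_left, hy, mul_zero]

lemma inner_self_gs {n : ℕ} {G : ℕ → ℝ → E} (t : ℝ) (i : Fin n) :
    inner ℝ (G i t) (gs n G t i) = ‖gs n G t i‖ ^ 2 := by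
  have h := gramSchmidt_def'' ℝ (fun j : Fin n => G j t) i
  have h2 : inner ℝ (G i t) (gs n G t i) = inner ℝ (gs n G t i) (gs n G t i) := by
    conv_lhs => rw [show G i t = _ from h]
    rw [inner_add_left, sum_inner]
    have : ∑ k ∈ Finset.Iio i, inner ℝ ((inner ℝ (gramSchmidt ℝ (fun j : Fin n => G j t) k)
        (G i t) / (‖gramSchmidt ℝ (fun j : Fin n => G j t) k‖ : ℝ) ^ 2) •
        gramSchmidt ℝ (fun j : Fin n => G j t) k) (gs n G t i) = 0 := by
      apply Finset.sum_eq_zero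
      intro k hk
      rw [Finset.mem_Iio] at hk
      rw [inner_smul_left, gramSchmidt_orthogonal ℝ _ (ne_of_lt hk), mul_zero]
    simp only [RCLike.ofReal_real_eq_id, id] at this ⊢
    rw [this, add_zero]
  rw [h2, real_inner_self_eq_norm_sq]

/-- Derivative of the normalised vectors. -/
lemma gn_deriv {n : ℕ} {G : ℕ → ℝ → E} (hG : ∀ k t, HasDerivAt (G k) (G (k + 1) t) t)
    (hli : ∀ t, LinearIndependent ℝ (fun j : Fin n => G j t)) (i : Fin n) (t : ℝ) :
    ∃ D, HasDerivAt (fun s => gn n G s i) D t ∧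
      D - ‖gs n G t i‖⁻¹ • G (i + 1) t ∈ Submodule.span ℝ (gs n G t '' Set.Iic i) := by
  obtain ⟨D, hD, hmem⟩ := gs_deriv hG hli i t
  have hpos := gs_norm_pos hli i t
  have h1 : HasDerivAt (fun s => ‖gs n G s i‖) _ t :=
    hD.norm_sq.sqrt (pow_ne_zero 2 hpos.ne') |>.congr_of_eventuallyEq (by
      apply Eventually.of_forall
      intro s
      simp [Real.sqrt_sq (norm_nonneg _)])
  have h2 := h1.inv hpos.ne'
  have h3 := h2.fun_smul hD
  refine ⟨_, h3, ?_⟩
  have hself : gs n G t i ∈ Submodule.span ℝ (gs n G t '' Set.Iic i) :=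
    Submodule.subset_span ⟨i, Set.mem_Iic.mpr le_rfl, rfl⟩
  have e : ∀ (a : ℝ) (x y z : E), (a • x + y) - a • z = a • (x - z) + y := by
    intro a x y z
    rw [smul_sub]; abel
  rw [show (fun s => ‖gs n G s i‖)⁻¹ t = ‖gs n G t i‖⁻¹ from rfl, e]
  apply Submodule.add_mem
  · exact Submodule.smul_mem _ _ hmem
  · exact Submodule.smul_mem _ _ hself

/-- The Frenet coefficient. -/
lemma gn_inner_succ {n : ℕ} {G : ℕ → ℝ → E} (hG : ∀ k t, HasDerivAt (G k) (G (k + 1) t) t)
    (hli : ∀ t, LinearIndependent ℝ (fun j : Fin n => G j t)) (i : Fin n)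
    (hi : (i : ℕ) + 1 < n) (t : ℝ) :
    inner ℝ (deriv (fun s => gn n G s i) t) (gn n G t ⟨i + 1, hi⟩) =
      ‖gs n G t ⟨i + 1, hi⟩‖ / ‖gs n G t i‖ := by
  obtain ⟨D, hD, hmem⟩ := gn_deriv hG hli i t
  rw [hD.deriv]
  have hlt : i < ⟨i + 1, hi⟩ := Fin.lt_def.mpr (Nat.lt_succ_self _)
  have h1 := inner_span_zero hlt hmem
  rw [inner_sub_left, inner_smul_left, sub_eq_zero] at h1
  have h2 : inner ℝ (G (i + 1) t) (gs n G t ⟨i + 1, hi⟩) = ‖gs n G t ⟨i + 1, hi⟩‖ ^ 2 :=
    inner_self_gs t ⟨i + 1, hi⟩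
  have hp1 := gs_norm_pos hli i t
  have hp2 := gs_norm_pos hli ⟨i + 1, hi⟩ t
  show inner ℝ D ((‖gs n G t ⟨i + 1, hi⟩‖ : ℝ)⁻¹ • gs n G t ⟨i + 1, hi⟩) = _
  rw [inner_smul_right, h1, h2]
  simp only [conj_trivial]
  field_simp

/-- Derivative of the unit tangent. -/
lemma tangent_deriv {n : ℕ} (hn : 2 ≤ n) {G : ℕ → ℝ → E}
    (hG : ∀ k t, HasDerivAt (G k) (G (k + 1) t) t)
    (hli : ∀ t, LinearIndependent ℝ (fun j : Fin n => G j t)) (t : ℝ) :
    HasDerivAt (fun s => gn n G s ⟨0, by omega⟩)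
      (‖gs n G t ⟨0, by omega⟩‖⁻¹ • gs n G t ⟨1, by omega⟩) t := by
  set i0 : Fin n := ⟨0, by omega⟩ with hi0
  set i1 : Fin n := ⟨1, by omega⟩ with hi1
  obtain ⟨D, hD, hmem⟩ := gn_deriv hG hli i0 t
  have hp0 := gs_norm_pos hli i0 t
  have hIic : Set.Iic i0 = {i0} := by
    ext k
    simp only [Set.mem_Iic, Set.mem_singleton_iff, hi0, Fin.le_def, Fin.ext_iff]
    omega
  have hIio : Finset.Iio i1 = {i0} := by
    ext k
    simp only [Finset.mem_Iio, Finset.mem_singleton, hi0, hi1, Fin.lt_def, Fin.ext_iff]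
    omega
  rw [hIic, Set.image_singleton, Submodule.mem_span_singleton] at hmem
  obtain ⟨a, ha⟩ := hmem
  have hG1 : G ((i0 : ℕ) + 1) t = gs n G t i1 +
      (inner ℝ (gs n G t i0) (G 1 t) / ‖gs n G t i0‖ ^ 2) • gs n G t i0 := by
    have h := gramSchmidt_def'' ℝ (fun j : Fin n => G j t) i1
    rw [hIio, Finset.sum_singleton] at h
    simpa using h
  set b := inner ℝ (gs n G t i0) (G 1 t) / ‖gs n G t i0‖ ^ 2 with hb
  have hDeq : D = ‖gs n G t i0‖⁻¹ • gs n G t i1 + (a + ‖gs n G t i0‖⁻¹ * b) • gs n G t i0 := by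
    have : D = a • gs n G t i0 + ‖gs n G t i0‖⁻¹ • G ((i0 : ℕ) + 1) t := by
      rw [ha]; abel
    rw [this, hG1, smul_add, smul_smul, add_smul]
    abel
  -- orthogonality to the unit tangent
  have hunit : ∀ s, ‖gn n G s i0‖ = 1 := fun s => gramSchmidtNormed_unit_length i0 (hli s)
  have h1 : inner ℝ (gn n G t i0) D = 0 := by
    have e1 := hD.norm_sq
    have e2 : HasDerivAt (fun s => ‖gn n G s i0‖ ^ 2) 0 t := by
      have : (fun s => ‖gn n G s i0‖ ^ 2) = fun _ => (1 : ℝ) := by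
        funext s; rw [hunit s, one_pow]
      rw [this]
      exact hasDerivAt_const t 1
    have := e1.unique e2
    linarith
  have h2 : inner ℝ (gs n G t i0) D = 0 := by
    have e : gn n G t i0 = ‖gs n G t i0‖⁻¹ • gs n G t i0 := rfl
    rw [e, inner_smul_left] at h1
    rcases mul_eq_zero.mp h1 with h | h
    · simp only [conj_trivial, inv_eq_zero] at h
      exact absurd h hp0.ne'
    · exact h
  have h3 : inner ℝ (gs n G t i0) (gs n G t i1) = 0 := by
    apply gramSchmidt_orthogonal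
    rw [hi0, hi1]
    intro h
    have := congrArg Fin.val h
    simp at this
  rw [hDeq, inner_add_right, inner_smul_right, inner_smul_right, h3, mul_zero, zero_add,
    real_inner_self_eq_norm_sq] at h2
  have h4 : a + ‖gs n G t i0‖⁻¹ * b = 0 := by
    rcases mul_eq_zero.mp h2 with h | h
    · exact h
    · exact absurd h (pow_ne_zero 2 hp0.ne')
  rw [h4, zero_smul, add_zero] at hDeq
  rw [← hDeq]
  exact hD

end Pool.Agent.Helper255.Nd
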