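import Mathlib
import Pool.Agent.Helper255.NdB
import Pool.Agent.Helper255.NdC

set_option autoImplicit false

open Real Set Filter Topology InnerProductSpace

namespace Pool.Agent.Helper255.Nd

variable {E : Type*} [NormedAddCommGroup E] [InnerProductSpace ℝ E]

lemma frame_length_gt {n : ℕ} (hn : 3 ≤ n) {γ : ℝ → E} {G : ℕ → ℝ → E}
    (hγ : ∀ t, HasDerivAt γ (G 0 t) t)
    (hG : ∀ k t, HasDerivAt (G k) (G (k + 1) t) t)
    (hli : ∀ t, LinearIndependent ℝ (fun j : Fin n => G j t))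
    (hper : γ (2 * π) = γ 0) (hperG : ∀ k, G k (2 * π) = G k 0) :
    2 * π < ∫ t in (0 : ℝ)..(2 * π), Real.sqrt (∑ i : Fin (n - 1),
      (‖gs n G t ⟨i + 1, by omega⟩‖ / ‖gs n G t ⟨i, by omega⟩‖) ^ 2) := by
  have hpi : (0 : ℝ) < 2 * π := by positivity
  set i0 : Fin n := ⟨0, by omega⟩ with hi0
  set i1 : Fin n := ⟨1, by omega⟩ with hi1
  have hc : ∀ i, Continuous (fun s => gs n G s i) := gs_cont hG hli
  have hpos : ∀ i t, 0 < ‖gs n G t i‖ := gs_norm_pos hli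
  have hG0 : ∀ t, gs n G t i0 = G 0 t := by
    intro t
    have hIio : Finset.Iio i0 = ∅ := by
      ext k
      simp [hi0, Fin.lt_def]
    have := gramSchmidt_def ℝ (fun j : Fin n => G j t) i0
    rw [hIio, Finset.sum_empty, sub_zero] at this
    exact this
  have hT := tangent_deriv (by omega : 2 ≤ n) hG hli
  have hcT : Continuous (fun t => ‖gs n G t i0‖⁻¹ • gs n G t i1) :=
    ((hc i0).norm.inv₀ fun t => (hpos i0 t).ne').smul (hc i1)
  have hfen := fenchel (γ := γ) (T := fun s => gn n G s i0)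
    (T' := fun t => ‖gs n G t i0‖⁻¹ • gs n G t i1) (v := fun t => ‖gs n G t i0‖) ?_
    (hpos i0) hT hcT (fun s => gramSchmidtNormed_unit_length i0 (hli s)) hpi hper ?_
  rotate_left
  · intro t
    have e : ‖gs n G t i0‖ • gn n G t i0 = G 0 t := by
      show ‖gs n G t i0‖ • (‖gs n G t i0‖⁻¹ • gs n G t i0) = G 0 t
      rw [smul_smul, mul_inv_cancel₀ (hpos i0 t).ne', one_smul, hG0]
    show HasDerivAt γ (‖gs n G t i0‖ • gn n G t i0) t
    rw [e]
    exact hγ t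
  · show gramSchmidtNormed ℝ (fun j : Fin n => G j (2 * π)) i0 =
      gramSchmidtNormed ℝ (fun j : Fin n => G j 0) i0
    simp only [hperG]
  refine hfen.trans_lt ?_
  have hterm : ∀ i : Fin (n - 1), Continuous (fun t : ℝ =>
      (‖gs n G t ⟨i + 1, by omega⟩‖ / ‖gs n G t ⟨i, by omega⟩‖) ^ 2) := by
    intro i
    exact (((hc _).norm).div (hc _).norm fun t => (hpos _ t).ne').pow 2
  have hcont : Continuous (fun t : ℝ => Real.sqrt (∑ i : Fin (n - 1),
      (‖gs n G t ⟨i + 1, by omega⟩‖ / ‖gs n G t ⟨i, by omega⟩‖) ^ 2)) :=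
    (continuous_finsetSum _ fun i _ => hterm i).sqrt
  have hlt : ∀ t : ℝ, ‖‖gs n G t i0‖⁻¹ • gs n G t i1‖ < Real.sqrt (∑ i : Fin (n - 1),
      (‖gs n G t ⟨i + 1, by omega⟩‖ / ‖gs n G t ⟨i, by omega⟩‖) ^ 2) := by
    intro t
    apply Real.lt_sqrt_of_sq_lt
    have hf0 : (⟨0, by omega⟩ : Fin (n - 1)) ≠ ⟨1, by omega⟩ := by
      intro h
      have := congrArg Fin.val h
      simp at this
    have hsub : ∑ i ∈ ({⟨0, by omega⟩, ⟨1, by omega⟩} : Finset (Fin (n - 1))),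
        (‖gs n G t ⟨i + 1, by omega⟩‖ / ‖gs n G t ⟨i, by omega⟩‖) ^ 2 ≤
        ∑ i : Fin (n - 1), (‖gs n G t ⟨i + 1, by omega⟩‖ / ‖gs n G t ⟨i, by omega⟩‖) ^ 2 :=
      Finset.sum_le_sum_of_subset_of_nonneg (Finset.subset_univ _) fun i _ _ => sq_nonneg _
    rw [Finset.sum_pair hf0] at hsub
    refine lt_of_lt_of_le ?_ hsub
    have e1 : ‖‖gs n G t i0‖⁻¹ • gs n G t i1‖ = ‖gs n G t ⟨0 + 1, by omega⟩‖ /
        ‖gs n G t ⟨0, by omega⟩‖ := by
      rw [norm_smul, norm_inv, norm_norm, inv_mul_eq_div]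
    rw [e1]
    have h2 : 0 < (‖gs n G t ⟨1 + 1, by omega⟩‖ / ‖gs n G t ⟨1, by omega⟩‖) ^ 2 := by
      have := hpos ⟨1 + 1, by omega⟩ t
      have := hpos ⟨1, by omega⟩ t
      positivity
    exact lt_add_of_pos_right _ h2
  exact intervalIntegral.integral_lt_integral_of_continuousOn_of_le_of_exists_lt hpi
    hcT.norm.continuousOn hcont.continuousOn (fun t _ => (hlt t).le)
    ⟨0, ⟨le_rfl, hpi.le⟩, hlt 0⟩

end Pool.Agent.Helper255.Nd
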